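import Mathlib
import Pool.Agent.Q96.QuasiBanach

/-!
# A nonzero quasi-Banach space with the Schur `p`-property and trivial dual, for every `0 < p < 1`
-/

set_option autoImplicit false

open Filter Topology Q96.QuasiBanach Q96.SchurP

namespace Pool.Agent.Results.MP_86e52e_an.TrivialDualSchur

/-- `f` is continuous for the topology of the quasi-norm `N` -/
def ContinuousFor {𝕜 X : Type} [RCLike 𝕜] [AddCommGroup X] [Module 𝕜 X] (N : X → ℝ)
    (f : X →ₗ[𝕜] 𝕜) : Prop :=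
  ∀ x, ∀ ε > 0, ∃ δ > 0, ∀ y, N (y - x) < δ → ‖f y - f x‖ < ε

section construction

variable (p : ℝ)

lemma exists_mN (hp : 0 < p) (hp1 : p < 1) (K : ℝ) (hK : 0 ≤ K) :
    ∃ m N : ℕ, 0 < m ∧ 1 ≤ N ∧ 2 * N ≤ m ∧ K * (m : ℝ) ^ p ≤ N := by
  have h1 : Tendsto (fun m : ℕ => (m : ℝ) ^ (-(1 - p))) atTop (𝓝 0) :=
    (tendsto_rpow_neg_atTop (by linarith)).comp tendsto_natCast_atTop_atTop
  have h2 := h1.eventually (gt_mem_nhds (show 0 < 1 / (8 * (K + 1)) by positivity))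
  obtain ⟨m, hm1, hm2⟩ := (h2.and (eventually_ge_atTop 16)).exists
  have hm0 : (0 : ℝ) < m := by
    have : 0 < m := by omega
    exact_mod_cast this
  have hm4 : (16 : ℝ) ≤ m := by exact_mod_cast hm2
  have h3 : (m : ℝ) ^ p = m * (m : ℝ) ^ (-(1 - p)) := by
    conv_rhs => rw [← Real.rpow_one (m : ℝ)]
    rw [← Real.rpow_mul hm0.le, ← Real.rpow_add hm0]
    congr 1; ring
  have h4 : K * (m : ℝ) ^ p ≤ m / 8 := by
    rw [h3]
    have h5 : (m : ℝ) ^ (-(1 - p)) * (8 * (K + 1)) ≤ 1 := by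
      rw [lt_div_iff₀ (by positivity)] at hm1
      exact hm1.le
    have h6 : 0 ≤ (m : ℝ) ^ (-(1 - p)) := Real.rpow_nonneg hm0.le _
    have h7 : K * (m : ℝ) ^ (-(1 - p)) ≤ 1 / 8 := by nlinarith
    nlinarith
  refine ⟨m, ⌈K * (m : ℝ) ^ p⌉₊ + 1, by omega, by omega, ?_, ?_⟩
  · have h8 : (⌈K * (m : ℝ) ^ p⌉₊ : ℝ) < K * (m : ℝ) ^ p + 1 :=
      Nat.ceil_lt_add_one (by positivity)
    have h9 : (2 * (⌈K * (m : ℝ) ^ p⌉₊ + 1 : ℕ) : ℝ) ≤ m := by
      push_cast
      linarith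
    exact_mod_cast h9
  · push_cast
    have := Nat.le_ceil (K * (m : ℝ) ^ p)
    linarith

/-- the parameters of the construction -/
structure Par where
  m : ℕ → ℕ
  N : ℕ → ℕ
  b : ℕ → ℕ
  hm : ∀ n, 0 < m n
  hN : ∀ n, 1 ≤ N n
  hNm : ∀ n, 2 * N n ≤ m n
  hK : ∀ n, 2 ^ (n + 1) * (m n : ℝ) ^ p ≤ N n
  hb0 : b 0 = 1
  hb : ∀ n, b (n + 1) = b n + N n

lemma exists_par (hp : 0 < p) (hp1 : p < 1) : Nonempty (Par p) := by
  choose m N h1 h2 h3 h4 using fun n : ℕ => exists_mN p hp hp1 (2 ^ (n + 1)) (by positivity)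
  exact ⟨⟨m, N, fun n => 1 + ∑ j ∈ Finset.range n, N j, h1, h2, h3, h4, by simp, fun n => by
    rw [Finset.sum_range_succ, add_assoc]⟩⟩

variable {p}

namespace Par

variable (P : Par p)

lemma b_mono : Monotone P.b := monotone_nat_of_le_succ fun n => by rw [P.hb]; omega

lemma b_gt (n : ℕ) : n < P.b n := by
  induction n with
  | zero => rw [P.hb0]; norm_num
  | succ n ih => rw [P.hb]; have := P.hN n; omega

/-- the support of the `n`-th block -/
def B (n : ℕ) : Finset ℕ := Finset.Ico (P.b n) (P.b (n + 1))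

lemma card_B (n : ℕ) : (P.B n).card = P.N n := by
  unfold B
  rw [Nat.card_Ico, P.hb]; omega

variable (𝕜 : Type) [RCLike 𝕜]

/-- the `n`-th block -/
noncomputable def g (n : ℕ) : ℕ →₀ 𝕜 := Data.restr (fun _ => ((P.m n : ℝ)⁻¹ : 𝕜)) (P.B n)

lemma g_support (n : ℕ) : (P.g 𝕜 n).support ⊆ P.B n := Data.support_restr _ _

lemma S_g (hp : 0 < p) (n : ℕ) : S p (P.g 𝕜 n) = P.N n * ((P.m n : ℝ)⁻¹) ^ p := by
  classical
  rw [S_eq hp _ _ (P.g_support 𝕜 n)]
  have h : ∀ i ∈ P.B n, ‖(P.g 𝕜 n) i‖ ^ p = ((P.m n : ℝ)⁻¹) ^ p := by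
    intro i hi
    unfold g
    rw [Data.restr_apply, if_pos hi]
    congr 1
    rw [norm_inv, RCLike.norm_ofReal, abs_of_nonneg (Nat.cast_nonneg _)]
  rw [Finset.sum_congr rfl h, Finset.sum_const, P.card_B, nsmul_eq_mul]

lemma disj (m n : ℕ) (h : m ≠ n) : Disjoint (P.B m) (P.B n) := by
  unfold B
  rw [Finset.disjoint_left]
  intro i hi hi'
  rw [Finset.mem_Ico] at hi hi'
  rcases lt_or_gt_of_ne h with h | h
  · have := P.b_mono (Nat.succ_le_of_lt h)
    simp only [Nat.succ_eq_add_one] at this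
    omega
  · have := P.b_mono (Nat.succ_le_of_lt h)
    simp only [Nat.succ_eq_add_one] at this
    omega

/-- the data of the quotient -/
noncomputable def data (hp : 0 < p) (hp1 : p < 1) : Data 𝕜 ℕ where
  p := p
  hp := hp
  hp1 := hp1
  u := fun n => Finsupp.single n 1
  g := P.g 𝕜
  T := fun k => Finset.range (P.b k)
  e := fun n => (1 / 2) ^ (n + 1)
  hdisj := fun m n hmn => (P.disj m n hmn).mono (P.g_support 𝕜 m) (P.g_support 𝕜 n)
  hT := fun k l h => Finset.range_mono (P.b_mono h)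
  hTc := fun i => ⟨i, Finset.mem_range.mpr (P.b_gt i)⟩
  hu := fun n k h => by
    intro i hi
    have := Finsupp.support_single_subset hi
    rw [Finset.mem_singleton] at this
    rw [this, Finset.mem_range]
    exact lt_trans h (P.b_gt k)
  hg := fun n k h => by
    intro i hi
    have := P.g_support 𝕜 n hi
    unfold B at this
    rw [Finset.mem_Ico] at this
    rw [Finset.mem_range]
    exact lt_of_lt_of_le this.2 (P.b_mono h)
  hg' := fun n k h => by
    rw [Finset.disjoint_left]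
    intro i hi hi'
    have := P.g_support 𝕜 n hi
    unfold B at this
    rw [Finset.mem_Ico] at this
    rw [Finset.mem_range] at hi'
    have := P.b_mono h
    omega
  he := (tendsto_pow_atTop_nhds_zero_of_lt_one (by norm_num) (by norm_num)).comp
    (tendsto_add_atTop_nat 1)
  he0 := fun n => by positivity
  he1 := fun n => by
    rw [pow_succ]
    have : (1 / 2 : ℝ) ^ n ≤ 1 := pow_le_one₀ (by norm_num) (by norm_num)
    linarith
  hea := fun m n h => pow_le_pow_of_le_one (by norm_num) (by norm_num) (by omega)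
  hS := fun n => by
    rw [P.S_g 𝕜 hp]
    have h1 : S p (Finsupp.single n (1 : 𝕜)) = 1 := by
      rw [S_eq hp _ {n} Finsupp.support_single_subset]
      simp
    rw [h1]
    have hm : (0 : ℝ) < P.m n := by exact_mod_cast P.hm n
    have hmp : (0 : ℝ) < (P.m n : ℝ) ^ p := Real.rpow_pos_of_pos hm _
    have h2 := P.hK n
    rw [Real.inv_rpow hm.le]
    have h3 : (1 / 2 : ℝ) ^ (n + 1) * 2 ^ (n + 1) = 1 := by rw [← mul_pow]; norm_num
    have h4 : (1 / 2 : ℝ) ^ (n + 1) * (2 ^ (n + 1) * (P.m n : ℝ) ^ p) = (P.m n : ℝ) ^ p := by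
      rw [← mul_assoc, h3, one_mul]
    have h5 : (P.m n : ℝ) ^ p ≤ (1 / 2 : ℝ) ^ (n + 1) * P.N n := by
      rw [← h4]
      exact mul_le_mul_of_nonneg_left h2 (by positivity)
    calc (1 : ℝ) = (P.m n : ℝ) ^ p * ((P.m n : ℝ) ^ p)⁻¹ := (mul_inv_cancel₀ hmp.ne').symm
      _ ≤ ((1 / 2 : ℝ) ^ (n + 1) * P.N n) * ((P.m n : ℝ) ^ p)⁻¹ :=
        mul_le_mul_of_nonneg_right h5 (inv_nonneg.mpr hmp.le)
      _ = _ := by ring

end Par

end construction

section dual

variable {𝕜 : Type} [RCLike 𝕜] {Γ : Type} (D : Data 𝕜 Γ)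

lemma bounded_of_continuousFor (f : D.Sp →ₗ[𝕜] 𝕜) (hf : ContinuousFor (NN D) f) :
    ∃ C : ℝ, ∀ x, ‖f x‖ ≤ C * NN D x := by
  obtain ⟨δ, hδ, h⟩ := hf 0 1 one_pos
  have h' : ∀ y, NN D y < δ → ‖f y‖ < 1 := by
    intro y hy
    have := h y (by rwa [sub_zero])
    rwa [map_zero, sub_zero] at this
  refine ⟨2 / δ, fun x => ?_⟩
  by_cases hx : NN D x = 0
  · rw [(isQuasiBanach D).eq_zero x hx, map_zero, norm_zero]
    exact mul_nonneg (by positivity) (NN_nonneg D _)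
  have hpos : 0 < NN D x := lt_of_le_of_ne (NN_nonneg D x) (Ne.symm hx)
  have h1 := h' (((δ / 2 / NN D x : ℝ) : 𝕜) • x) (by
    rw [(isQuasiBanach D).smul, RCLike.norm_ofReal, abs_of_pos (by positivity),
      div_mul_cancel₀ _ hx]
    linarith)
  rw [map_smul, norm_smul, RCLike.norm_ofReal, abs_of_pos (by positivity)] at h1
  rw [div_mul_eq_mul_div, div_lt_one hpos] at h1
  rw [div_mul_eq_mul_div, le_div_iff₀ hδ]
  linarith

lemma q_rel (n : ℕ) : D.q (D.u n) = D.q (D.g n) := by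
  have h1 : D.R (Finsupp.single n 1) = D.u n - D.g n := by
    rw [D.R_eq _ {n} Finsupp.support_single_subset]
    simp
  have h2 : ‖D.q (D.u n) - D.q (D.g n)‖ = 0 := by
    rw [← D.q_sub, D.norm_q]
    have h4 := D.rho_sub_R (D.u n - D.g n) (Finsupp.single n 1)
    rw [h1, sub_self, D.rho_zero] at h4
    exact h4.symm
  exact sub_eq_zero.mp (norm_eq_zero.mp h2)

lemma eq_zero_of_q (f : D.Sp →ₗ[𝕜] 𝕜) (C : ℝ) (hC : ∀ x, ‖f x‖ ≤ C * NN D x)
    (h : ∀ i, f (D.q (Finsupp.single i 1)) = 0) : f = 0 := by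
  have h1 : ∀ v, f (D.q v) = 0 := by
    intro v
    have h2 : (f ∘ₗ D.Q) = 0 := by
      apply Finsupp.lhom_ext
      intro i a
      have : Finsupp.single i a = a • Finsupp.single i (1 : 𝕜) := by
        rw [Finsupp.smul_single, smul_eq_mul, mul_one]
      rw [LinearMap.comp_apply, this, map_smul, map_smul, D.Q_apply, h, smul_zero]
      simp
    exact LinearMap.congr_fun h2 v
  ext x
  rw [LinearMap.zero_apply, ← norm_le_zero_iff]
  have hC0 : ∀ ε > 0, ‖f x‖ ≤ max C 0 * ε ^ (1 / D.p) := by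
    intro ε hε
    obtain ⟨v, hv, _⟩ := D.exists_rep x hε
    have h2 : f x = f (x - D.q v) := by rw [map_sub, h1, sub_zero]
    rw [h2]
    refine le_trans (hC _) ?_
    have h3 : NN D (x - D.q v) ≤ ε ^ (1 / D.p) :=
      Real.rpow_le_rpow (norm_nonneg _) hv.le (pinv_pos D).le
    exact mul_le_mul (le_max_left _ _) h3 (NN_nonneg D _) (le_max_right _ _)
  have hlim : Tendsto (fun ε : ℝ => max C 0 * ε ^ (1 / D.p)) (𝓝[>] 0) (𝓝 (max C 0 * 0)) := by
    apply Tendsto.const_mul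
    have h4 : Tendsto (fun ε : ℝ => ε ^ (1 / D.p)) (𝓝 0) (𝓝 (0 ^ (1 / D.p))) :=
      (Real.continuousAt_rpow_const _ _ (Or.inr (pinv_pos D).le)).tendsto
    rw [Real.zero_rpow (pinv_pos D).ne'] at h4
    exact h4.mono_left nhdsWithin_le_nhds
  rw [mul_zero] at hlim
  exact ge_of_tendsto hlim (eventually_mem_nhdsWithin.mono fun ε hε => hC0 ε hε)

end dual

section final

variable {𝕜 : Type} [RCLike 𝕜] {p : ℝ} (P : Par p) (hp : 0 < p) (hp1 : p < 1)

lemma norm_q_single_le (i : ℕ) : NN (P.data 𝕜 hp hp1) ((P.data 𝕜 hp hp1).q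
    (Finsupp.single i 1)) ≤ 1 := by
  unfold NN
  apply Real.rpow_le_one (norm_nonneg _) _ (pinv_pos _).le
  rw [Data.norm_q]
  refine le_trans (Data.rho_le_S _ _) ?_
  change S p _ ≤ 1
  rw [S_eq hp _ {i} Finsupp.support_single_subset]
  simp

lemma rel_sum (f : (P.data 𝕜 hp hp1).Sp →ₗ[𝕜] 𝕜) (n : ℕ) :
    f ((P.data 𝕜 hp hp1).q (Finsupp.single n 1)) =
      ∑ i ∈ P.B n, ((P.m n : ℝ)⁻¹ : 𝕜) * f ((P.data 𝕜 hp hp1).q (Finsupp.single i 1)) := by
  classical
  have h1 := q_rel (P.data 𝕜 hp hp1) n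
  have h2 : (P.data 𝕜 hp hp1).u n = Finsupp.single n 1 := rfl
  have h3 : (P.data 𝕜 hp hp1).g n = ∑ i ∈ P.B n, ((P.m n : ℝ)⁻¹ : 𝕜) • Finsupp.single i 1 := by
    change P.g 𝕜 n = _
    ext j
    unfold Par.g
    rw [Data.restr_apply, Finsupp.finset_sum_apply]
    simp only [Finsupp.smul_apply, Finsupp.single_apply, smul_eq_mul, mul_ite, mul_one, mul_zero,
      Finset.sum_ite_eq', Finset.sum_ite_eq]
  rw [h2, h3] at h1
  rw [h1, ← Data.Q_apply, map_sum, map_sum]
  apply Finset.sum_congr rfl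
  intro i _
  rw [map_smul, map_smul, smul_eq_mul, Data.Q_apply]

lemma trivial_dual (f : (P.data 𝕜 hp hp1).Sp →ₗ[𝕜] 𝕜)
    (hf : ContinuousFor (NN (P.data 𝕜 hp hp1)) f) : f = 0 := by
  obtain ⟨C, hC⟩ := bounded_of_continuousFor _ f hf
  have key : ∀ k : ℕ, ∀ i, ‖f ((P.data 𝕜 hp hp1).q (Finsupp.single i 1))‖ ≤
      max C 0 * (1 / 2) ^ k := by
    intro k
    induction k with
    | zero =>
      intro i
      rw [pow_zero, mul_one]
      refine le_trans (hC _) ?_
      have h1 := norm_q_single_le (𝕜 := 𝕜) P hp hp1 i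
      have h2 := NN_nonneg (P.data 𝕜 hp hp1) ((P.data 𝕜 hp hp1).q (Finsupp.single i 1))
      calc _ ≤ max C 0 * 1 := mul_le_mul (le_max_left _ _) h1 h2 (le_max_right _ _)
        _ = _ := mul_one _
    | succ k ih =>
      intro n
      rw [rel_sum]
      refine le_trans (norm_sum_le _ _) ?_
      have hm : (0 : ℝ) < P.m n := by exact_mod_cast P.hm n
      have h1 : ∀ i ∈ P.B n, ‖((P.m n : ℝ)⁻¹ : 𝕜) *
          f ((P.data 𝕜 hp hp1).q (Finsupp.single i 1))‖ ≤
          (P.m n : ℝ)⁻¹ * (max C 0 * (1 / 2) ^ k) := by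
        intro i _
        rw [norm_mul, norm_inv, RCLike.norm_ofReal, abs_of_pos hm]
        exact mul_le_mul_of_nonneg_left (ih i) (inv_nonneg.mpr hm.le)
      refine le_trans (Finset.sum_le_sum h1) ?_
      rw [Finset.sum_const, P.card_B, nsmul_eq_mul]
      have h2 : (2 : ℝ) * P.N n ≤ P.m n := by exact_mod_cast P.hNm n
      have h3 : (P.N n : ℝ) * (P.m n : ℝ)⁻¹ ≤ 1 / 2 := by
        rw [mul_inv_le_iff₀ hm]; linarith
      have h4 : 0 ≤ max C 0 * (1 / 2 : ℝ) ^ k := by positivity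
      calc (P.N n : ℝ) * ((P.m n : ℝ)⁻¹ * (max C 0 * (1 / 2) ^ k)) =
          ((P.N n : ℝ) * (P.m n : ℝ)⁻¹) * (max C 0 * (1 / 2) ^ k) := by ring
        _ ≤ (1 / 2) * (max C 0 * (1 / 2) ^ k) := mul_le_mul_of_nonneg_right h3 h4
        _ = _ := by rw [pow_succ]; ring
  apply eq_zero_of_q _ f C hC
  intro i
  rw [← norm_le_zero_iff]
  have hlim : Tendsto (fun k : ℕ => max C 0 * (1 / 2 : ℝ) ^ k) atTop (𝓝 (max C 0 * 0)) :=
    (tendsto_pow_atTop_nhds_zero_of_lt_one (by norm_num) (by norm_num)).const_mul _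
  rw [mul_zero] at hlim
  exact ge_of_tendsto' hlim fun k => key k i

lemma nonzero : ∃ x : (P.data 𝕜 hp hp1).Sp, x ≠ 0 := by
  classical
  set D := P.data 𝕜 hp hp1 with hD
  refine ⟨D.q (Finsupp.single 0 1), fun h => ?_⟩
  have h1 : D.rho (Finsupp.single 0 1) = 0 := by rw [← D.norm_q, h, norm_zero]
  have h2 : (1 : ℝ) ≤ D.rho (Finsupp.single 0 1) := by
    apply D.le_rho
    intro c
    set U : ℕ →₀ 𝕜 := ∑ n ∈ c.support, c n • D.u n with hU
    set G : ℕ →₀ 𝕜 := ∑ n ∈ c.support, c n • D.g n with hG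
    have hR : D.R c = U - G := by
      unfold Data.R
      rw [hU, hG, ← Finset.sum_sub_distrib]
      exact Finset.sum_congr rfl fun n _ => smul_sub _ _ _
    have hSUG : S D.p U ≤ S D.p G := by
      have h1 : S D.p G = ∑ n ∈ c.support, S D.p (c n • D.g n) := by
        apply S_sum_disj D.hp
        intro m _ n _ hmn
        exact (D.hdisj m n hmn).mono Finsupp.support_smul Finsupp.support_smul
      rw [h1]
      refine le_trans (S_sum_le D.hp D.hp1 _ _) ?_
      apply Finset.sum_le_sum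
      intro n hn
      rw [S_smul D.hp, S_smul D.hp]
      apply mul_le_mul_of_nonneg_left _ (Real.rpow_nonneg (norm_nonneg _) _)
      have h3 : 0 ≤ S D.p (D.g n) := S_nonneg _
      have h4 := D.hS n
      have h5 := D.he1 n
      nlinarith
    have hdisj : Disjoint (Finsupp.single 0 (1 : 𝕜)).support G.support := by
      rw [Finset.disjoint_left]
      intro i hi hi'
      have h3 := Finsupp.support_single_subset hi
      rw [Finset.mem_singleton] at h3
      have := Finsupp.support_finset_sum hi'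
      rw [Finset.mem_biUnion] at this
      obtain ⟨n, _, hi''⟩ := this
      refine Finset.disjoint_left.mp (D.hg' n 0 (Nat.zero_le n)) (Finsupp.support_smul hi'') ?_
      change i ∈ Finset.range (P.b 0)
      rw [h3, P.hb0]
      simp
    have h3 := S_add_disj D.hp _ _ hdisj
    have h4 : Finsupp.single 0 1 + G = (Finsupp.single 0 1 - D.R c) + U := by rw [hR]; abel
    have h5 := S_add_le D.hp D.hp1 (Finsupp.single 0 1 - D.R c) U
    rw [← h4, h3] at h5
    have h6 : S D.p (Finsupp.single 0 (1 : 𝕜)) = 1 := by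
      rw [S_eq D.hp _ {0} Finsupp.support_single_subset]
      simp
    rw [h6] at h5
    linarith
  linarith

end final

/-- **Positive answer.** For every `0 < p < 1` and both scalar fields there is a nonzero quasi-Banach
space with the Schur `p`-property and trivial dual. -/
theorem result (𝕜 : Type) [RCLike 𝕜] (p : ℝ) (hp : 0 < p) (hp1 : p < 1) :
    ∃ (X : Type) (_ : AddCommGroup X) (_ : Module 𝕜 X) (N : X → ℝ),
      IsQuasiBanach 𝕜 N ∧ (∃ x : X, x ≠ 0) ∧ SchurP 𝕜 p N ∧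
        ∀ f : X →ₗ[𝕜] 𝕜, ContinuousFor N f → f = 0 := by
  obtain ⟨P⟩ := exists_par p hp hp1
  exact ⟨(P.data 𝕜 hp hp1).Sp, inferInstance, inferInstance, NN (P.data 𝕜 hp hp1),
    isQuasiBanach _, nonzero P hp hp1, schurP (P.data 𝕜 hp hp1), trivial_dual P hp hp1⟩

end Pool.Agent.Results.MP_86e52e_an.TrivialDualSchur
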